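import Pool.Agent.N563.UL.U13

/-!
# The inertia determinant of convex bodies: tetrahedra are strict local maximisers, with linear
stability

For a convex body `K` of `ℝⁿ` let `I(K) = det A / |K|^(n+2)`, where `A` is the matrix of the second
moments of `K` about its centroid; `I(K) = det A(K)` if `|K| = 1` and the centroid is the origin.
Let `dev K = 1 - |K|/|T| ∈ [0,1)`, where `T` is a smallest simplex containing `K`; it vanishes
exactly for simplices. In every dimension `n ≥ 2` there are `δ, c > 0` with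
`(1 + c dev K) I(K) ≤ I(Δ)` for all bodies with `dev K ≤ δ`; if simplices are the only maximisers of
`I`, then the same inequality holds, with some `c > 0`, for all convex bodies.
-/

set_option autoImplicit false

noncomputable section

open MeasureTheory Set Filter Topology

namespace Pool.Agent.Results.MP_2e1554_gt.LocalMaximality

open Pool.Agent.H131R5.LM Pool.Agent.W679.B Pool.Agent.N563.UL
open Pool.Agent.N563.SE (Body cov LK LK_pos LK_sh sh det_pos Wp)

/-- convex bodies -/
def ConvexBody {n : ℕ} (K : Set (Fin n → ℝ)) : Prop :=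
  Convex ℝ K ∧ IsCompact K ∧ (interior K).Nonempty

/-- the centroid -/
def centroid {n : ℕ} (K : Set (Fin n → ℝ)) : Fin n → ℝ :=
  fun i => (∫ x in K, x i) / (volume K).toReal

/-- the matrix of the second moments about the centroid -/
def secondMoments {n : ℕ} (K : Set (Fin n → ℝ)) : Matrix (Fin n) (Fin n) ℝ :=
  Matrix.of fun i j => ∫ x in K, (x i - centroid K i) * (x j - centroid K j)

/-- the scale invariant inertia determinant `det A / |K|^(n+2)` -/
def inertiaDet {n : ℕ} (K : Set (Fin n → ℝ)) : ℝ :=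
  (secondMoments K).det / (volume K).toReal ^ (n + 2)

/-- `K` is the convex hull of at most `n + 1` points; a convex body with this property is a
simplex -/
def Simplex {n : ℕ} (K : Set (Fin n → ℝ)) : Prop :=
  ∃ Q : Finset (Fin n → ℝ), Q.card ≤ n + 1 ∧ K = convexHull ℝ (Q : Set (Fin n → ℝ))

/-- the smallest volume of a simplex (hull of at most `n + 1` points) containing `K` -/
def simplexHullVolume {n : ℕ} (K : Set (Fin n → ℝ)) : ℝ :=
  sInf {v | ∃ Q : Finset (Fin n → ℝ), Q.card ≤ n + 1 ∧ K ⊆ convexHull ℝ (Q : Set (Fin n → ℝ)) ∧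
    v = (volume (convexHull ℝ (Q : Set (Fin n → ℝ)))).toReal}

/-- the deviation of `K` from simplices -/
def deviation {n : ℕ} (K : Set (Fin n → ℝ)) : ℝ := 1 - (volume K).toReal / simplexHullVolume K

variable {n : ℕ} {K : Set (Fin n → ℝ)}

lemma body_of (h : ConvexBody K) : Body K := ⟨h.2.1, h.1, h.2.2⟩

lemma of_body (h : Body K) : ConvexBody K := ⟨h.conv, h.cpt, h.int⟩

lemma inertia_eq (hn : 1 ≤ n) (hK : Body K) : inertiaDet K = (LK K ^ n) ^ 2 := by
  have hW : 0 < (volume K).toReal := Wp hK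
  have h1 : LK K ^ n = Real.sqrt (cov K).det / (volume K).toReal := by
    unfold LK
    have h0 : 0 ≤ Real.sqrt (cov K).det / (volume K).toReal := by positivity
    rw [← Real.rpow_natCast, ← Real.rpow_mul h0, one_div, inv_mul_cancel₀, Real.rpow_one]
    exact_mod_cast (by omega : n ≠ 0)
  have h2 : cov K = ((volume K).toReal)⁻¹ • secondMoments K := by
    ext i j
    simp only [cov, secondMoments, Matrix.of_apply, Matrix.smul_apply, smul_eq_mul]
    rw [div_eq_inv_mul]
    rfl
  have h3 : 0 < (cov K).det := det_pos hK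
  rw [h1, div_pow, Real.sq_sqrt h3.le, h2, Matrix.det_smul, Fintype.card_fin]
  unfold inertiaDet
  rw [inv_pow, pow_add]
  have hWn : (volume K).toReal ^ n ≠ 0 := by positivity
  have hW2 : (volume K).toReal ^ 2 ≠ 0 := by positivity
  rw [div_eq_div_iff (by positivity) (by positivity)]
  calc (secondMoments K).det * (volume K).toReal ^ 2
      = (secondMoments K).det * (((volume K).toReal ^ n)⁻¹ * (volume K).toReal ^ n) *
        (volume K).toReal ^ 2 := by rw [inv_mul_cancel₀ hWn, mul_one]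
    _ = _ := by ring

/-- all simplices have the same inertia determinant -/
lemma LK_hull (hn : 1 ≤ n) (hK : Body K) (hH : Hull K) : LK K = LK (Sn n) := by
  obtain ⟨Q, hQ, hKQ⟩ := hH
  obtain ⟨M, x0, hM⟩ := simplex_param Q hQ (by rw [← hKQ]; exact hK.int)
  have h1 : sh x0 K = M '' Sn n := by
    rw [hKQ, hM]
    unfold Pool.Agent.N563.SE.sh
    rw [image_image]
    refine image_congr fun c _ => ?_
    simp
  rw [← LK_sh hK x0, h1, LK_img hn (bodyS n) M]

lemma hull_Sn (n : ℕ) : Simplex (Sn n) := by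
  classical
  obtain ⟨v, -, -, hv⟩ := (Pool.Agent.TH649.LOC.centred_iff (Sn n)).1
    ⟨LinearEquiv.refl ℝ _, (image_id (Sn n)).symm⟩
  refine ⟨Finset.univ.image v, Finset.card_image_le.trans (by simp), ?_⟩
  rw [Finset.coe_image, Finset.coe_univ, Set.image_univ]
  exact hv

lemma gain_sq {x a b : ℝ} (hx : 0 ≤ x) (ha : 0 ≤ a) (h : (1 + x) * a ≤ b) :
    (1 + x) * a ^ 2 ≤ b ^ 2 := by
  have h0 : 0 ≤ (1 + x) * a := by positivity
  have h1 : ((1 + x) * a) ^ 2 ≤ b ^ 2 := pow_le_pow_left₀ h0 h 2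
  have h2 : 0 ≤ x * (1 + x) * a ^ 2 := by positivity
  nlinarith

/-- the local inequality -/
lemma loc (m : ℕ) : ∃ δ c : ℝ, 0 < δ ∧ 0 < c ∧ ∀ K : Set (Fin (m + 2) → ℝ), Body K → Near δ K →
    (1 + c * dev K) * (LK K ^ (m + 2)) ^ 2 ≤ (LK (Sn (m + 2)) ^ (m + 2)) ^ 2 := by
  obtain ⟨δ, η, hδ, hη, hgain⟩ := local_gain m one_pos
  refine ⟨δ, η, hδ, hη, fun K hK hN => ?_⟩
  obtain ⟨Q, hQ, hKQ, hvol⟩ := hN
  obtain ⟨T, hT, hKT, -, -, hI⟩ := hgain K hK.cpt hK.conv hK.int Q hQ hKQ hvol
  have hd := dev_nonneg hK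
  have hL := LK_pos hK
  refine gain_sq (by positivity) (by positivity) (le_trans ?_ hI)
  have h1 := dev_le hK hT hKT
  gcongr

theorem main (m : ℕ) :
    (∃ δ c : ℝ, 0 < δ ∧ 0 < c ∧ ∀ K : Set (Fin (m + 2) → ℝ), Body K → dev K ≤ δ →
      (1 + c * dev K) * (LK K ^ (m + 2)) ^ 2 ≤ (LK (Sn (m + 2)) ^ (m + 2)) ^ 2) ∧
    (Slice (m + 2) → ∃ c : ℝ, 0 < c ∧ ∀ K : Set (Fin (m + 2) → ℝ), Body K →
      (1 + c * dev K) * (LK K ^ (m + 2)) ^ 2 ≤ (LK (Sn (m + 2)) ^ (m + 2)) ^ 2) := by
  obtain ⟨δ, c, hδ, hc, h⟩ := loc m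
  refine ⟨⟨δ / (1 + δ), c, by positivity, hc, fun K hK hd => h K hK (near_of_dev hK hδ hd)⟩,
    fun hs => ?_⟩
  obtain ⟨κ, hκ, hgap⟩ := gapLK (by omega : 1 ≤ m + 2) hs hδ
  refine ⟨min c κ, lt_min hc hκ, fun K hK => ?_⟩
  have hd0 := dev_nonneg hK
  have hd1 := dev_lt_one hK
  have hL := LK_pos hK
  have hL' := LK_pos (bodyS (m + 2))
  by_cases hN : Near δ K
  · refine le_trans ?_ (h K hK hN)
    gcongr
    exact min_le_left _ _
  · have h1 := hgap K hK hN
    have h2 : ((1 + κ) * LK K) ^ (m + 2) ≤ LK (Sn (m + 2)) ^ (m + 2) :=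
      pow_le_pow_left₀ (by positivity) h1 _
    refine gain_sq (by positivity) (by positivity) (le_trans ?_ h2)
    rw [mul_pow]
    have h3 : 1 + min c κ * dev K ≤ (1 + κ) ^ (m + 2) := by
      have h4 : min c κ * dev K ≤ κ * 1 := mul_le_mul (min_le_right _ _) hd1.le hd0 hκ.le
      have h5 : 1 + κ ≤ (1 + κ) ^ (m + 2) := le_self_pow₀ (by linarith) (by omega)
      linarith
    gcongr

/-- **Simplices are strict local maximisers of the inertia determinant, with linear stability.** -/
theorem result : ∀ n : ℕ, 2 ≤ n →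
    -- the deviation
    (∀ K : Set (Fin n → ℝ), ConvexBody K → 0 ≤ deviation K ∧ deviation K < 1 ∧
      (deviation K = 0 ↔ Simplex K)) ∧
    -- all simplices have the same inertia determinant
    (∀ S S' : Set (Fin n → ℝ), ConvexBody S → ConvexBody S' → Simplex S → Simplex S' →
      inertiaDet S = inertiaDet S') ∧
    -- local maximality with linear stability
    (∃ δ c : ℝ, 0 < δ ∧ 0 < c ∧ ∀ K S : Set (Fin n → ℝ), ConvexBody K → ConvexBody S → Simplex S →
      deviation K ≤ δ → (1 + c * deviation K) * inertiaDet K ≤ inertiaDet S) ∧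
    -- if simplices are the only maximisers, then linear stability holds for all convex bodies
    ((∀ K S : Set (Fin n → ℝ), ConvexBody K → ConvexBody S → Simplex S →
        inertiaDet K ≤ inertiaDet S ∧ (inertiaDet K = inertiaDet S → Simplex K)) →
      ∃ c : ℝ, 0 < c ∧ ∀ K S : Set (Fin n → ℝ), ConvexBody K → ConvexBody S → Simplex S →
        (1 + c * deviation K) * inertiaDet K ≤ inertiaDet S) := by
  intro n hn
  obtain ⟨m, rfl⟩ : ∃ m, n = m + 2 := ⟨n - 2, by omega⟩
  have hn1 : 1 ≤ m + 2 := by omega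
  have key : ∀ S : Set (Fin (m + 2) → ℝ), ConvexBody S → Simplex S →
      inertiaDet S = (LK (Sn (m + 2)) ^ (m + 2)) ^ 2 := by
    intro S hS hS'
    rw [inertia_eq hn1 (body_of hS), LK_hull hn1 (body_of hS) hS']
  obtain ⟨⟨δ, c, hδ, hc, h1⟩, h2⟩ := main m
  refine ⟨fun K hK => ⟨dev_nonneg (body_of hK), dev_lt_one (body_of hK), dev_zero (body_of hK)⟩,
    fun S S' hS hS' h h' => by rw [key S hS h, key S' hS' h'],
    ⟨δ, c, hδ, hc, fun K S hK hS hS' hd => ?_⟩, fun hs => ?_⟩
  · rw [key S hS hS', inertia_eq hn1 (body_of hK)]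
    exact h1 K (body_of hK) hd
  · have hB := bodyS (m + 2)
    have hSS : Simplex (Sn (m + 2)) := hull_Sn (m + 2)
    have hsl : Slice (m + 2) := by
      intro K hK
      have h3 := hs K (Sn (m + 2)) (of_body hK) (of_body hB) hSS
      rw [key _ (of_body hB) hSS, inertia_eq hn1 hK] at h3
      have hL := LK_pos hK
      have hL' := LK_pos hB
      constructor
      · have h4 := (pow_le_pow_iff_left₀ (by positivity) (by positivity) two_ne_zero).1 h3.1
        exact (pow_le_pow_iff_left₀ hL.le hL'.le (by omega)).1 h4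
      · intro he
        exact h3.2 (by rw [he])
    obtain ⟨c', hc', h4⟩ := h2 hsl
    refine ⟨c', hc', fun K S hK hS hS' => ?_⟩
    rw [key S hS hS', inertia_eq hn1 (body_of hK)]
    exact h4 K (body_of hK)

end Pool.Agent.Results.MP_2e1554_gt.LocalMaximality
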